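import Mathlib
import Pool.Agent.Y293.FA.Stm2

/-!
# Distance sets of planar self-similar sets: assembly
-/

namespace Pool.Agent.Y781.FA

open MeasureTheory Set Filter Topology
open scoped ENNReal
open Pool.Agent.Y293.FA

/-- The exponent may be taken slightly larger than one. -/
theorem exists_exponent {N : ℕ} {c : ℂ} (hc : c ≠ 0) (h : 1 < N * ‖c‖) :
    ∃ s : ℝ, 1 < s ∧ s ≤ 2 ∧ 1 < N * ‖c‖ ^ s := by
  have h1 : ContinuousAt (fun s : ℝ => (N : ℝ) * ‖c‖ ^ s) 1 := by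
    refine continuousAt_const.mul ?_
    exact Real.continuousAt_const_rpow (norm_ne_zero_iff.2 hc)
  have h2 : ∀ᶠ s in 𝓝 (1 : ℝ), 1 < (N : ℝ) * ‖c‖ ^ s := by
    refine h1.eventually (lt_mem_nhds ?_)
    simpa using h
  have h3 : ∀ᶠ s in 𝓝[>] (1 : ℝ), 1 < (N : ℝ) * ‖c‖ ^ s := nhdsWithin_le_nhds h2
  have h4 : ∀ᶠ s in 𝓝[>] (1 : ℝ), s ∈ Ioc (1 : ℝ) 2 := Ioc_mem_nhdsGT (by norm_num)
  obtain ⟨s, hs1, hs2⟩ := (h3.and h4).exists
  exact ⟨s, hs2.1, hs2.2, hs1⟩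

theorem fin : S_SIM → S_SUB → S_SSM → S_HOM → S_MAIN := by
  intro hsim hsub hssm hhom m f r hr0 hr1 hf E hE hEf hd
  let φ : ℂ ≃ₗᵢ[ℝ] EuclideanSpace ℝ (Fin 2) := Complex.orthonormalBasisOneI.repr
  have hg : ∀ i x y, dist (φ.symm (f i (φ x))) (φ.symm (f i (φ y))) = r i * dist x y := by
    intro i x y
    rw [φ.symm.dist_map, hf, φ.dist_map]
  choose o a b ha hab using fun i => hsim (fun z => φ.symm (f i (φ z))) (r i) (hr0 i) (hg i)
  have hcomp : IsCompact (φ.symm '' E) := hE.image φ.symm.continuous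
  have hinv : φ.symm '' E = ⋃ i, sm (o i) (a i) (b i) '' (φ.symm '' E) := by
    conv_lhs => rw [hEf]
    rw [image_iUnion]
    refine iUnion_congr fun i => ?_
    rw [image_image, image_image]
    refine image_congr fun x _ => ?_
    rw [← hab i, φ.apply_symm_apply]
  have hdim : dimH (φ.symm '' E) = dimH E := φ.symm.isometry.dimH_image E
  obtain ⟨c, N, T, hc0, hc1, hNc, hT, hdisj⟩ := hsub m o a b
    (fun i => norm_ne_zero_iff.1 (by rw [ha i]; exact (hr0 i).ne')) (fun i => by rw [ha i]; exact hr1 i)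
    (φ.symm '' E) hcomp hinv (by rw [hdim]; exact hd)
  have hne : E.Nonempty := by
    rw [nonempty_iff_ne_empty]
    rintro rfl
    simp at hd
  obtain ⟨s, hs1, hs2, hNs⟩ := exists_exponent hc0 hNc
  obtain ⟨μ, hμ, hμE, hμi, hen⟩ := hssm c hc0 hc1 N T (φ.symm '' E) hcomp (hne.image _) hT hdisj s
    (by linarith) hNs
  have h := hhom c hc0 hc1 N T (φ.symm '' E) hcomp hT μ hμE hμi s hs1 hs2 hen
  have hset : {t : ℝ | ∃ x ∈ φ.symm '' E, ∃ y ∈ φ.symm '' E, t = dist x y} =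
      {t : ℝ | ∃ x ∈ E, ∃ y ∈ E, t = dist x y} := by
    ext t
    constructor
    · rintro ⟨_, ⟨x, hx, rfl⟩, _, ⟨y, hy, rfl⟩, h⟩
      exact ⟨x, hx, y, hy, by rw [h, φ.symm.dist_map]⟩
    · rintro ⟨x, hx, y, hy, h⟩
      exact ⟨_, ⟨x, hx, rfl⟩, _, ⟨y, hy, rfl⟩, by rw [h, φ.symm.dist_map]⟩
  rwa [hset] at h

end Pool.Agent.Y781.FA
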